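import Mathlib

/-!
# Blind robot in mazes in the square lattice (problem MP_46d976_co)

Definitions used in the hand-ins.
-/

set_option autoImplicit false

namespace Pool.BRB

open MeasureTheory

/-- the four instructions -/
inductive Dir | N | S | E | W
  deriving DecidableEq, Fintype

instance : MeasurableSpace Dir := ⊤

/-- unit vector of an instruction -/
def vec : Dir → ℤ × ℤ
  | .N => (0, 1)
  | .S => (0, -1)
  | .E => (1, 0)
  | .W => (-1, 0)

/-- A board is a set of lattice edges: `M (v, true)` says that the edge from `v` to `v + (0, 1)` is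
present, `M (v, false)` that the edge from `v` to `v + (1, 0)` is present. -/
abbrev Board := (ℤ × ℤ) × Bool → Bool

/-- is `v` joined in `M` to `v + vec D`? -/
def has (M : Board) (v : ℤ × ℤ) : Dir → Bool
  | .N => M (v, true)
  | .S => M (v - (0, 1), true)
  | .E => M (v, false)
  | .W => M (v - (1, 0), false)

/-- one step of the robot -/
def step (M : Board) (v : ℤ × ℤ) (D : Dir) : ℤ × ℤ := if has M v D = true then v + vec D else v

/-- position of the robot after `n` steps of the algorithm `A` -/
def pos (M : Board) (o : ℤ × ℤ) (A : ℕ → Dir) : ℕ → ℤ × ℤ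
  | 0 => o
  | n + 1 => step M (pos M o A n) (A n)

/-- board, origin, destination -/
abbrev Triple := Board × (ℤ × ℤ) × (ℤ × ℤ)

/-- origin and destination are in the same component -/
def IsMaze (m : Triple) : Prop :=
  Relation.ReflTransGen (fun u v => ∃ D, has m.1 u D = true ∧ v = u + vec D) m.2.1 m.2.2

/-- the algorithm solves the maze -/
def Solves (A : ℕ → Dir) (m : Triple) : Prop := ∃ n, pos m.1 m.2.1 A n = m.2.2

/-- the law of an infinite sequence of independent uniformly distributed instructions -/
noncomputable def wordLaw : Measure (ℕ → Dir) :=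
  Measure.infinitePi (fun _ : ℕ => (4 : ENNReal)⁻¹ • (Measure.count : Measure Dir))

/-- `m'` looks like `m` within distance `n` of the origin: same origin, same destination, and the
boards agree on all edges starting at a point of the box of radius `n` around the origin -/
def Near (n : ℕ) (m m' : Triple) : Prop :=
  m'.2 = m.2 ∧ ∀ v : ℤ × ℤ, |v.1 - m.2.1.1| ≤ n → |v.2 - m.2.1.2| ≤ n →
    ∀ c : Bool, m'.1 (v, c) = m.1 (v, c)

/-- a set of mazes is null for the gauge `1 / log`: for every `ε > 0` it is covered by countably
many cylinders of radii `r i ≥ 2` with `∑ 1 / log (r i) < ε` -/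
def LogNull (C : Set Triple) : Prop :=
  ∀ ε : ℝ, 0 < ε → ∃ (c : ℕ → Triple) (r : ℕ → ℕ), (∀ i, 2 ≤ r i) ∧
    Summable (fun i => 1 / Real.log (r i)) ∧ ∑' i, 1 / Real.log (r i) < ε ∧
    ∀ m ∈ C, ∃ i, Near (r i) (c i) m

/-- distance in the maximum norm -/
def nn (v w : ℤ × ℤ) : ℕ := max (v.1 - w.1).natAbs (v.2 - w.2).natAbs

end Pool.BRB
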