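import Pool.Agent.H74.BRB.Core

/-!
# Blind robot: auxiliary definitions
-/

set_option autoImplicit false

namespace Pool.BRB

open MeasureTheory

/-! ## Auxiliary: walks -/

/-- fraction of the words of length `n` which do not bring the robot from `v` to `d` -/
noncomputable def uu (M : Board) (d : ℤ × ℤ) : ℕ → ℤ × ℤ → ℝ
  | 0, v => if v = d then 0 else 1
  | n + 1, v => if v = d then 0 else (1 / 4) * ∑ D : Dir, uu M d n (step M v D)

/-- Laplace operator of the board -/
noncomputable def Lap (M : Board) (f : ℤ × ℤ → ℝ) (v : ℤ × ℤ) : ℝ :=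
  ∑ D : Dir, (f (step M v D) - f v)

/-- increment of `f` along an edge -/
def inc (f : ℤ × ℤ → ℝ) (e : (ℤ × ℤ) × Bool) : ℝ :=
  f (e.1 + if e.2 then (0, 1) else (1, 0)) - f e.1

/-- energy form -/
noncomputable def En (M : Board) (g f : ℤ × ℤ → ℝ) : ℝ :=
  ∑' e : (ℤ × ℤ) × Bool, if M e = true then inc g e * inc f e else 0

/-- harmonic numbers -/
noncomputable def har (r : ℕ) : ℝ := ∑ i ∈ Finset.range r, 1 / ((i : ℝ) + 1)

/-- cut-off function -/
noncomputable def cut (d : ℤ × ℤ) (r : ℕ) (v : ℤ × ℤ) : ℝ := 1 - har (min (nn v d) r) / har r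

end Pool.BRB
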