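import Pool.Agent.H74.BRB.Stmts

/-! Row ENG: energy bound. -/

set_option autoImplicit false

namespace Pool.BRB

open Finset

theorem ENG (h1 : SBPStmt) : ENGStmt := by
  classical
  intro M d f hf
  obtain ⟨hd, hb, hfin, hL⟩ := hf
  have hsupp : {v : ℤ × ℤ | (fun v => 1 - f v) v ≠ 0}.Finite := by
    refine hfin.subset ?_
    intro v hv h
    apply hv
    simp only
    rw [h, sub_self]
  have h2 := h1 M (fun v => 1 - f v) f hsupp
  have h3 : En M (fun v => 1 - f v) f = - En M f f := by
    unfold En
    rw [← tsum_neg]
    congr 1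
    funext e
    by_cases he : M e = true
    · simp only [he, if_true, inc]
      ring
    · simp only [he]
      simp
  rw [h3, neg_neg] at h2
  rw [← h2]
  have h4 : ∑' v : ℤ × ℤ, (fun v => 1 - f v) v * Lap M f v =
      ∑ v ∈ insert d hsupp.toFinset, (1 - f v) * Lap M f v := by
    apply tsum_eq_sum
    intro v hv
    have : (1 : ℝ) - f v = 0 := by
      by_contra hne
      apply hv
      rw [Finset.mem_insert]
      right
      rw [Set.Finite.mem_toFinset]
      exact hne
    simp only [this, zero_mul]
  rw [h4, ← Finset.add_sum_erase _ _ (Finset.mem_insert_self d _)]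
  have h5 : ∑ v ∈ (insert d hsupp.toFinset).erase d, (1 - f v) * Lap M f v ≤ 0 := by
    apply Finset.sum_nonpos
    intro v hv
    rw [Finset.mem_erase] at hv
    have := (hb v).2
    exact mul_nonpos_of_nonneg_of_nonpos (by linarith) (hL v hv.1)
  rw [hd]
  linarith

end Pool.BRB
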