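import Pool.Agent.H74.BRB.Stmts

set_option autoImplicit false

namespace Pool.BRB

open MeasureTheory

/-- real analysis: choice of the number of free edges -/
private lemma exa_choice (B : ℕ) (ε : ℝ) (hε : 0 < ε) : ∃ J r : ℕ, 2 ≤ r ∧
    ((r : ℝ) + B < Real.exp (4 ^ J)) ∧ (2 : ℝ) ^ J * (1 / Real.log r) ≤ ε / 2 := by
  obtain ⟨J, hJ⟩ := pow_unbounded_of_one_lt (4 / ε + 2 * (B : ℝ) + 8) (by norm_num : (1 : ℝ) < 2)
  have h4ε : 0 < 4 / ε := by positivity
  have hB : (0 : ℝ) ≤ B := Nat.cast_nonneg B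
  have h24 : (2 : ℝ) ^ J ≤ 4 ^ J := pow_le_pow_left₀ (by norm_num) (by norm_num) J
  have hx : (4 : ℝ) ^ J + 1 ≤ Real.exp (4 ^ J) := Real.add_one_le_exp _
  obtain ⟨x, hxd⟩ : ∃ x : ℝ, x = Real.exp (4 ^ J) := ⟨_, rfl⟩
  rw [← hxd] at hx
  have hx8 : 2 * (B : ℝ) + 8 < x := by linarith
  have hr1 := Nat.lt_floor_add_one (x / 2)
  have hr2 := Nat.floor_le (show 0 ≤ x / 2 by linarith)
  obtain ⟨r, hr⟩ : ∃ r : ℕ, r = ⌊x / 2⌋₊ := ⟨_, rfl⟩
  rw [← hr] at hr1 hr2
  have hr3 : x / 4 ≤ r := by linarith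
  have hr4 : (2 : ℝ) ≤ r := by linarith
  refine ⟨J, r, by exact_mod_cast hr4, by rw [← hxd]; linarith, ?_⟩
  have hlog : (4 : ℝ) ^ J / 2 ≤ Real.log r := by
    have h1 : Real.log (x / 4) ≤ Real.log r := Real.log_le_log (by linarith) hr3
    have h2 : Real.log (x / 4) = 4 ^ J - Real.log 4 := by
      rw [Real.log_div (by linarith) (by norm_num), hxd, Real.log_exp]
    have h3 : Real.log 4 ≤ 4 - 1 := Real.log_le_sub_one_of_pos (by norm_num)
    linarith
  have h4pos : (0 : ℝ) < 4 ^ J := by positivity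
  have h2pos : (0 : ℝ) < 2 ^ J := by positivity
  have hinv : 1 / Real.log r ≤ 1 / ((4 : ℝ) ^ J / 2) :=
    one_div_le_one_div_of_le (by positivity) hlog
  have h5 : (4 : ℝ) ^ J = 2 ^ J * 2 ^ J := by
    rw [← mul_pow]; norm_num
  calc (2 : ℝ) ^ J * (1 / Real.log r) ≤ 2 ^ J * (1 / ((4 : ℝ) ^ J / 2)) := by gcongr
    _ = 2 / 2 ^ J := by rw [h5]; field_simp
    _ ≤ ε / 2 := by
      rw [div_le_div_iff₀ h2pos (by norm_num)]
      have h6 : 4 / ε ≤ 2 ^ J := by linarith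
      rw [div_le_iff₀ hε] at h6
      linarith

/-- the auxiliary radii and the sum -/
private lemma exa_radii (J r₀ : ℕ) (ε : ℝ) (hε : 0 < ε) (hr₀ : 2 ≤ r₀)
    (hs : (2 : ℝ) ^ J * (1 / Real.log r₀) ≤ ε / 2) :
    ∃ r : ℕ → ℕ, (∀ i, 2 ≤ r i) ∧ (∀ i < 2 ^ J, r i = r₀) ∧
      Summable (fun i => 1 / Real.log (r i)) ∧ ∑' i, 1 / Real.log (r i) < ε := by
  classical
  obtain ⟨K, hK⟩ : ∃ K : ℝ, K = 8 / ε := ⟨_, rfl⟩
  have hKpos : 0 < K := by rw [hK]; positivity
  obtain ⟨R, hR⟩ : ∃ R : ℕ → ℕ, ∀ i, R i = ⌈Real.exp (K * 2 ^ i)⌉₊ + 2 := ⟨_, fun _ => rfl⟩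
  have hRlog : ∀ i, 1 / Real.log (R i) ≤ 1 / K * (1 / 2) ^ i := by
    intro i
    have h1 : Real.exp (K * 2 ^ i) ≤ (R i : ℝ) := by
      rw [hR]; push_cast
      have := Nat.le_ceil (Real.exp (K * 2 ^ i))
      linarith
    have h2 : K * 2 ^ i ≤ Real.log (R i) := by
      rw [← Real.log_exp (K * 2 ^ i)]
      exact Real.log_le_log (Real.exp_pos _) h1
    have h3 : 1 / Real.log (R i) ≤ 1 / (K * 2 ^ i) :=
      one_div_le_one_div_of_le (by positivity) h2
    refine h3.trans (le_of_eq ?_)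
    rw [one_div_pow]
    field_simp
  let r : ℕ → ℕ := fun i => if i < 2 ^ J then r₀ else R i
  have hr2 : ∀ i, 2 ≤ r i := by
    intro i
    by_cases hi : i < 2 ^ J
    · simp only [r, hi, if_true]; exact hr₀
    · simp only [r, hi, if_false]; rw [hR]; omega
  have hnn : ∀ i, 0 ≤ 1 / Real.log (r i) := by
    intro i
    have h : (1 : ℝ) ≤ r i := by
      have := hr2 i
      exact_mod_cast (by omega : 1 ≤ r i)
    exact div_nonneg zero_le_one (Real.log_nonneg h)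
  obtain ⟨a, ha⟩ : ∃ a : ℝ, a = 1 / Real.log r₀ := ⟨_, rfl⟩
  let g₁ : ℕ → ℝ := fun i => if i ∈ Finset.range (2 ^ J) then a else 0
  have hg₁ : HasSum g₁ ((2 : ℝ) ^ J * a) := by
    have h : HasSum g₁ (∑ i ∈ Finset.range (2 ^ J), g₁ i) := by
      apply hasSum_sum_of_ne_finset_zero
      intro i hi
      simp only [g₁, hi, if_false]
    have h2 : ∑ i ∈ Finset.range (2 ^ J), g₁ i = (2 : ℝ) ^ J * a := by
      have : ∀ i ∈ Finset.range (2 ^ J), g₁ i = a := by
        intro i hi; simp only [g₁, hi, if_true]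
      rw [Finset.sum_congr rfl this, Finset.sum_const, Finset.card_range, nsmul_eq_mul]
      push_cast; ring
    rwa [h2] at h
  have hg₂ : HasSum (fun i : ℕ => 1 / K * (1 / 2 : ℝ) ^ i) (1 / K * 2) :=
    hasSum_geometric_two.mul_left (1 / K)
  have hg := hg₁.add hg₂
  have hle : ∀ i, 1 / Real.log (r i) ≤ g₁ i + 1 / K * (1 / 2 : ℝ) ^ i := by
    intro i
    by_cases hi : i < 2 ^ J
    · have h1 : g₁ i = a := by simp only [g₁, Finset.mem_range, hi, if_true]
      have h2 : 1 / Real.log (r i) = a := by simp only [r, hi, if_true]; exact ha.symm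
      rw [h1, h2]
      have : 0 ≤ 1 / K * (1 / 2 : ℝ) ^ i := by positivity
      linarith
    · have h1 : g₁ i = 0 := by simp only [g₁, Finset.mem_range, hi, if_false]
      have h2 : 1 / Real.log (r i) = 1 / Real.log (R i) := by simp only [r, hi, if_false]
      rw [h1, h2, zero_add]
      exact hRlog i
  have hsum : Summable (fun i => 1 / Real.log (r i)) :=
    Summable.of_nonneg_of_le hnn hle hg.summable
  refine ⟨r, hr2, fun i hi => by simp only [r, hi, if_true], hsum, ?_⟩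
  have h1 : ∑' i, 1 / Real.log (r i) ≤ (2 : ℝ) ^ J * a + 1 / K * 2 :=
    hasSum_le hle hsum.hasSum hg
  have h2 : 1 / K * 2 = ε / 4 := by
    rw [hK]; field_simp; norm_num
  rw [ha] at h1
  linarith

private lemma natAbs_bound (a b : ℤ) (r : ℕ) (h : |a - b| ≤ r) : a.natAbs ≤ r + b.natAbs := by
  rw [abs_le] at h
  omega

theorem EXA : EXAStmt := by
  classical
  intro M₀ e o d he ε hε
  obtain ⟨J, r₀, hr₀, hlt, hs⟩ := exa_choice (nn o 0) ε hε
  obtain ⟨r, hr2, hrr, hsum, hts⟩ := exa_radii J r₀ ε hε hr₀ hs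
  let Bd : ℕ → Board := fun i f =>
    if ∃ j < J, f = e j ∧ i.testBit j = true then true
    else if ∃ j < J, f = e j then false else M₀ f
  refine ⟨fun i => (Bd i, (o, d)), r, hr2, hsum, hts, ?_⟩
  rintro m ⟨hm2, hm⟩
  let i : ℕ := Nat.ofBits (fun j : Fin J => m.1 (e j))
  have hi : i < 2 ^ J := Nat.ofBits_lt_two_pow _
  have hbit : ∀ j < J, i.testBit j = m.1 (e j) := by
    intro j hj
    exact Nat.testBit_ofBits_lt _ j hj
  refine ⟨i, hm2, ?_⟩
  intro v hv1 hv2 c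
  rw [hrr i hi] at hv1 hv2
  change m.1 (v, c) = Bd i (v, c)
  simp only at hv1 hv2
  by_cases h1 : ∃ j < J, (v, c) = e j
  · obtain ⟨j, hj, hje⟩ := h1
    cases hb : m.1 (v, c) with
    | true =>
      have h2 : ∃ j < J, (v, c) = e j ∧ i.testBit j = true :=
        ⟨j, hj, hje, by rw [hbit j hj, ← hje]; exact hb⟩
      simp only [Bd, h2, if_true]
    | false =>
      have h2 : ¬ ∃ j < J, (v, c) = e j ∧ i.testBit j = true := by
        rintro ⟨j', hj', hje', ht⟩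
        rw [hbit j' hj', ← hje', hb] at ht
        exact Bool.false_ne_true ht
      have h3 : ∃ j < J, (v, c) = e j := ⟨j, hj, hje⟩
      simp only [Bd, h2, if_false, h3, if_true]
  · have h2 : ¬ ∃ j < J, (v, c) = e j ∧ i.testBit j = true := by
      rintro ⟨j', hj', hje', _⟩
      exact h1 ⟨j', hj', hje'⟩
    have h3 : ∀ j, (v, c) ≠ e j := by
      intro j hje
      by_cases hj : j < J
      · exact h1 ⟨j, hj, hje⟩
      · have h4 := he j
        have h5 : (4 : ℝ) ^ J ≤ 4 ^ j := pow_le_pow_right₀ (by norm_num) (by omega)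
        have h6 : Real.exp (4 ^ J) ≤ Real.exp (4 ^ j) := Real.exp_le_exp.mpr h5
        have h7 : nn (e j).1 0 ≤ r₀ + nn o 0 := by
          rw [← hje]
          unfold nn
          have a1 := natAbs_bound v.1 o.1 r₀ hv1
          have a2 := natAbs_bound v.2 o.2 r₀ hv2
          simp only [Prod.fst_zero, Prod.snd_zero, sub_zero]
          omega
        have h8 : ((nn (e j).1 0 : ℕ) : ℝ) ≤ (r₀ : ℝ) + (nn o 0 : ℕ) := by exact_mod_cast h7
        linarith
    simp only [Bd, h2, if_false, h1, if_false]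
    exact hm (v, c) h3

end Pool.BRB
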