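import Pool.Agent.H74.BRB.Stmts

/-!
# BRB: row EXB (countable intersection over the boards, origins and destinations)
-/

set_option autoImplicit false

namespace Pool.BRB

open MeasureTheory

theorem EXB (h1 : EXAStmt) (h2 : NULStmt) : EXBStmt := by
  intro B e he
  have h : ∀ (i : ℕ) (od : (ℤ × ℤ) × (ℤ × ℤ)), ∀ᵐ A ∂wordLaw,
      ∀ m ∈ {m : Triple | m.2 = (od.1, od.2) ∧ ∀ f, (∀ j, f ≠ e j) → m.1 f = B i f},
        IsMaze m → Solves A m :=
    fun i od => h2 _ (h1 (B i) e od.1 od.2 he)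
  have h' := ae_all_iff.2 (fun i => ae_all_iff.2 (h i))
  filter_upwards [h'] with A hA m hex hm
  obtain ⟨i, hi⟩ := hex
  exact hA i m.2 m ⟨rfl, hi⟩ hm

end Pool.BRB
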