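import Pool.Agent.H74.BRB.Stmts

/-! row EXB of the board brb7 -/

set_option autoImplicit false

namespace Pool.BRB

open MeasureTheory

theorem EXB (hE : EXAStmt) (hN : NULStmt) : EXBStmt := by
  intro B e he
  have h1 : ∀ i : ℕ, ∀ x : (ℤ × ℤ) × (ℤ × ℤ), ∀ᵐ A ∂wordLaw,
      ∀ m ∈ {m : Triple | m.2 = (x.1, x.2) ∧ ∀ f, (∀ j, f ≠ e j) → m.1 f = B i f},
        IsMaze m → Solves A m := by
    intro i x
    exact hN _ (hE (B i) e x.1 x.2 he)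
  have h2 : ∀ᵐ A ∂wordLaw, ∀ i : ℕ, ∀ x : (ℤ × ℤ) × (ℤ × ℤ),
      ∀ m ∈ {m : Triple | m.2 = (x.1, x.2) ∧ ∀ f, (∀ j, f ≠ e j) → m.1 f = B i f},
        IsMaze m → Solves A m := by
    rw [ae_all_iff]
    intro i
    rw [ae_all_iff]
    intro x
    exact h1 i x
  filter_upwards [h2] with A hA m hm hmz
  obtain ⟨i, hi⟩ := hm
  exact hA i m.2 m ⟨rfl, hi⟩ hmz

end Pool.BRB
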