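import Pool.Agent.H74.BRB.Stmts

/-!
# BRB, row GRD: gradient bound by level sets
-/

set_option autoImplicit false

namespace Pool.BRB

open MeasureTheory

theorem GRD (hSBP : SBPStmt) : GRDStmt := by
  classical
  intro M d f hf e he
  obtain ⟨hd, h01, hfin, hlap⟩ := hf
  have hLd : 0 ≤ Lap M f d := by
    unfold Lap
    apply Finset.sum_nonneg
    intro D _
    rw [hd, sub_zero]
    exact (h01 _).1
  have hinc : ∀ (h : ℤ × ℤ → ℝ) (a : (ℤ × ℤ) × Bool),
      inc h a = h (a.1 + if a.2 then (0, 1) else (1, 0)) - h a.1 := fun _ _ => rfl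
  by_cases heq : f (e.1 + if e.2 then (0, 1) else (1, 0)) = f e.1
  · rw [hinc, heq, sub_self, abs_zero]
    exact hLd
  obtain ⟨c, hc⟩ : ∃ c, c = max (f e.1) (f (e.1 + if e.2 then (0, 1) else (1, 0))) := ⟨_, rfl⟩
  obtain ⟨g, hg⟩ : ∃ g : ℤ × ℤ → ℝ, g = fun x => if f x < c then 1 else 0 := ⟨_, rfl⟩
  have hg1 : ∀ x, f x < c → g x = 1 := fun x hx => by rw [hg]; exact if_pos hx
  have hg0 : ∀ x, ¬ f x < c → g x = 0 := fun x hx => by rw [hg]; exact if_neg hx
  have hc1 : c ≤ 1 := by
    rw [hc]
    exact max_le (h01 _).2 (h01 _).2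
  have hc0 : 0 < c := by
    rw [hc]
    rcases lt_or_gt_of_ne heq with h | h
    · exact lt_of_lt_of_le (lt_of_le_of_lt (h01 _).1 h) (le_max_left _ _)
    · exact lt_of_lt_of_le (lt_of_le_of_lt (h01 _).1 h) (le_max_right _ _)
  have hLfin : {x | f x < c}.Finite := hfin.subset fun x hx => by
    have hx' : f x < c := hx
    exact ne_of_lt (lt_of_lt_of_le hx' hc1)
  have hgfin : {x | g x ≠ 0}.Finite := hLfin.subset fun x hx => by
    by_contra h
    exact hx (hg0 x h)
  have hS := hSBP M g f hgfin
  -- the left side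
  have hleft : ∑' v : ℤ × ℤ, g v * Lap M f v ≤ Lap M f d := by
    have h1 : ∑' v : ℤ × ℤ, g v * Lap M f v = ∑ v ∈ hLfin.toFinset, g v * Lap M f v := by
      apply tsum_eq_sum
      intro v hv
      have hv' : ¬ f v < c := fun h => hv (hLfin.mem_toFinset.2 h)
      rw [hg0 v hv', zero_mul]
    have hdL : d ∈ hLfin.toFinset := hLfin.mem_toFinset.2 (by
      change f d < c
      rw [hd]
      exact hc0)
    rw [h1, ← Finset.add_sum_erase _ _ hdL]
    have h2 : g d * Lap M f d = Lap M f d := by
      rw [hg1 d (by rw [hd]; exact hc0), one_mul]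
    have h3 : ∑ v ∈ hLfin.toFinset.erase d, g v * Lap M f v ≤ 0 := by
      apply Finset.sum_nonpos
      intro v hv
      have hvd : v ≠ d := Finset.ne_of_mem_erase hv
      have hvL : f v < c := hLfin.mem_toFinset.1 (Finset.mem_of_mem_erase hv)
      rw [hg1 v hvL, one_mul]
      exact hlap v hvd
    rw [h2]
    linarith
  -- the right side
  obtain ⟨F, hF⟩ : ∃ F : (ℤ × ℤ) × Bool → ℝ,
      F = fun a => if M a = true then - (inc g a * inc f a) else 0 := ⟨_, rfl⟩
  have hEn : - En M g f = ∑' a, F a := by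
    unfold En
    rw [← tsum_neg, hF]
    refine tsum_congr fun a => ?_
    split_ifs
    · rfl
    · exact neg_zero
  have hF0 : ∀ a, 0 ≤ F a := by
    intro a
    rw [hF]
    beta_reduce
    split_ifs
    · rw [hinc g, hinc f]
      by_cases h1 : f a.1 < c
      · by_cases h2 : f (a.1 + if a.2 then (0, 1) else (1, 0)) < c
        · rw [hg1 _ h1, hg1 _ h2]
          norm_num
        · rw [hg1 _ h1, hg0 _ h2]
          push Not at h2
          linarith
      · by_cases h2 : f (a.1 + if a.2 then (0, 1) else (1, 0)) < c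
        · rw [hg0 _ h1, hg1 _ h2]
          push Not at h1
          linarith
        · rw [hg0 _ h1, hg0 _ h2]
          norm_num
    · exact le_rfl
  have hFfin : (Function.support F).Finite := by
    have h1 : (Function.support F) ⊆
        (({x | f x < c} ∪ (fun x => x - ((0 : ℤ), (1 : ℤ))) '' {x | f x < c}) ∪
          (fun x => x - ((1 : ℤ), (0 : ℤ))) '' {x | f x < c}) ×ˢ (Set.univ : Set Bool) := by
      intro a ha
      refine ⟨?_, Set.mem_univ _⟩
      by_contra hc'
      simp only [Set.mem_union, not_or] at hc'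
      obtain ⟨⟨h1, h2⟩, h3⟩ := hc'
      apply ha
      rw [hF]
      beta_reduce
      have hga : g a.1 = 0 := hg0 _ h1
      have hgb : g (a.1 + if a.2 then (0, 1) else (1, 0)) = 0 := by
        apply hg0
        intro h
        cases hb : a.2
        · rw [hb] at h
          exact h3 ⟨_, h, by simp⟩
        · rw [hb] at h
          exact h2 ⟨_, h, by simp⟩
      rw [hinc g, hga, hgb]
      simp
    refine Set.Finite.subset ?_ h1
    exact ((hLfin.union (hLfin.image _)).union (hLfin.image _)).prod Set.finite_univ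
  have hFs : Summable F := summable_of_hasFiniteSupport hFfin
  have hFe : F e = |inc f e| := by
    rw [hF]
    beta_reduce
    rw [if_pos he, hinc g, hinc f]
    rcases lt_or_gt_of_ne heq with h | h
    · have hcv : c = f e.1 := by rw [hc]; exact max_eq_left h.le
      rw [hg1 _ (by rw [hcv]; exact h), hg0 e.1 (by rw [hcv]; exact lt_irrefl _),
        abs_of_neg (by linarith)]
      ring
    · have hcv : c = f (e.1 + if e.2 then (0, 1) else (1, 0)) := by
        rw [hc]; exact max_eq_right h.le
      rw [hg0 _ (by rw [← hcv]; exact lt_irrefl _), hg1 e.1 (by rw [hcv]; exact h),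
        abs_of_pos (by linarith)]
      ring
  have hfinal : |inc f e| ≤ ∑' a, F a := by
    rw [← hFe]
    exact hFs.le_tsum e (fun a _ => hF0 a)
  rw [← hEn, ← hS] at hfinal
  exact hfinal.trans hleft

end Pool.BRB
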