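import Pool.Agent.H74.BRB.Stmts

/-!
# MEA: measurability
-/

set_option autoImplicit false

namespace Pool.BRB

open MeasureTheory

theorem mea_has (u : ℤ × ℤ) (D : Dir) : Measurable fun M : Board => has M u D := by
  cases D <;> exact measurable_pi_apply _

theorem mea_walk (k : ℕ) : ∀ u v : ℤ × ℤ, MeasurableSet {M : Board | Walk M k u v} := by
  induction k with
  | zero => intro u v; exact MeasurableSet.const _
  | succ k ih =>
    intro u v
    have h : {M : Board | Walk M (k + 1) u v} =
        ⋃ D : Dir, ({M : Board | has M u D = true} ∩ {M : Board | Walk M k (u + vec D) v}) := by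
      ext M
      simp only [Walk, Set.mem_ofPred_eq, Set.mem_iUnion, Set.mem_inter_iff]
    rw [h]
    refine MeasurableSet.iUnion fun D => MeasurableSet.inter ?_ (ih _ _)
    exact mea_has u D (measurableSet_singleton true)

theorem mea_pos (o : ℤ × ℤ) (n : ℕ) : ∀ v : ℤ × ℤ,
    MeasurableSet {p : (ℕ → Dir) × Board | pos p.2 o p.1 n = v} := by
  induction n with
  | zero =>
    intro v
    have h : MeasurableSet {_p : (ℕ → Dir) × Board | o = v} := MeasurableSet.const _
    exact h
  | succ n ih =>
    intro v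
    have h : {p : (ℕ → Dir) × Board | pos p.2 o p.1 (n + 1) = v} =
        ⋃ w : ℤ × ℤ, ⋃ D : Dir, ({p : (ℕ → Dir) × Board | pos p.2 o p.1 n = w} ∩
          ({p : (ℕ → Dir) × Board | p.1 n = D} ∩
            {p : (ℕ → Dir) × Board | step p.2 w D = v})) := by
      ext p
      simp only [pos, Set.mem_ofPred_eq, Set.mem_iUnion, Set.mem_inter_iff]
      constructor
      · intro hp
        exact ⟨_, _, rfl, rfl, hp⟩
      · rintro ⟨w, D, h1, h2, h3⟩
        rw [h1, h2]
        exact h3
    rw [h]
    refine MeasurableSet.iUnion fun w => MeasurableSet.iUnion fun D =>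
      (ih w).inter (MeasurableSet.inter ?_ ?_)
    · have h1 : MeasurableSet ({D} : Set Dir) := MeasurableSpace.measurableSet_top
      have h3 : Measurable fun p : (ℕ → Dir) × Board => p.1 n :=
        (measurable_pi_apply n).comp measurable_fst
      exact h3 h1
    · have h2 : Measurable fun b : Bool => if b = true then w + vec D else w :=
        Measurable.of_discrete
      exact (h2.comp ((mea_has w D).comp measurable_snd)) (measurableSet_singleton v)

/-- MEA. -/
theorem MEA (hW : WLKStmt) : MEAStmt := by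
  have hm : MeasurableSet {p : (ℕ → Dir) × Triple | IsMaze p.2} := by
    have h : {p : (ℕ → Dir) × Triple | IsMaze p.2} = ⋃ k : ℕ, ⋃ x : (ℤ × ℤ) × (ℤ × ℤ),
        ({p : (ℕ → Dir) × Triple | p.2.2 = x} ∩
          {p : (ℕ → Dir) × Triple | Walk p.2.1 k x.1 x.2}) := by
      ext p
      simp only [Set.mem_ofPred_eq, Set.mem_iUnion, Set.mem_inter_iff]
      constructor
      · intro hp
        obtain ⟨k, hk⟩ := (hW p.2).1 hp
        exact ⟨k, _, rfl, hk⟩
      · rintro ⟨k, x, hx, hk⟩
        refine (hW p.2).2 ⟨k, ?_⟩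
        rw [hx]
        exact hk
    rw [h]
    refine MeasurableSet.iUnion fun k => MeasurableSet.iUnion fun x => MeasurableSet.inter ?_ ?_
    · exact (measurable_snd.comp measurable_snd) (measurableSet_singleton x)
    · exact (measurable_fst.comp measurable_snd) (mea_walk k x.1 x.2)
  have hs : MeasurableSet {p : (ℕ → Dir) × Triple | Solves p.1 p.2} := by
    have h : {p : (ℕ → Dir) × Triple | Solves p.1 p.2} = ⋃ n : ℕ, ⋃ x : (ℤ × ℤ) × (ℤ × ℤ),
        ({p : (ℕ → Dir) × Triple | p.2.2 = x} ∩
          {p : (ℕ → Dir) × Triple | pos p.2.1 x.1 p.1 n = x.2}) := by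
      ext p
      simp only [Set.mem_ofPred_eq, Set.mem_iUnion, Set.mem_inter_iff]
      constructor
      · rintro ⟨n, hn⟩
        exact ⟨n, _, rfl, hn⟩
      · rintro ⟨n, x, hx, hn⟩
        refine ⟨n, ?_⟩
        rw [hx]
        exact hn
    rw [h]
    refine MeasurableSet.iUnion fun n => MeasurableSet.iUnion fun x => MeasurableSet.inter ?_ ?_
    · exact (measurable_snd.comp measurable_snd) (measurableSet_singleton x)
    · have h1 : Measurable fun p : (ℕ → Dir) × Triple => (p.1, p.2.1) :=
        measurable_fst.prodMk (measurable_fst.comp measurable_snd)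
      exact h1 (mea_pos x.1 n x.2)
  have e : {p : (ℕ → Dir) × Triple | IsMaze p.2 → Solves p.1 p.2} =
      {p : (ℕ → Dir) × Triple | IsMaze p.2}ᶜ ∪ {p : (ℕ → Dir) × Triple | Solves p.1 p.2} := by
    ext p
    simp only [Set.mem_ofPred_eq, Set.mem_union, Set.mem_compl_iff]
    exact imp_iff_not_or
  unfold MEAStmt
  rw [e]
  exact hm.compl.union hs

end Pool.BRB
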