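import Pool.Agent.H74.BRB.Stmts

set_option autoImplicit false

namespace Pool.BRB

theorem NEA : NEAStmt := by
  intro n m m' A hN
  obtain ⟨h2, hM⟩ := hN
  have key : ∀ j ≤ n, pos m'.1 m'.2.1 A j = pos m.1 m.2.1 A j ∧
      |(pos m.1 m.2.1 A j).1 - m.2.1.1| ≤ j ∧ |(pos m.1 m.2.1 A j).2 - m.2.1.2| ≤ j := by
    intro j
    induction j with
    | zero =>
      intro _
      simp [pos, h2]
    | succ j ih =>
      intro hj
      obtain ⟨h3, h4, h5⟩ := ih (by omega)
      set v := pos m.1 m.2.1 A j with hv
      have hj' : (j : ℤ) + 1 ≤ n := by exact_mod_cast hj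
      rw [abs_le] at h4 h5
      have hhas : ∀ D, has m'.1 v D = has m.1 v D := by
        intro D
        cases D
        · exact hM v (by rw [abs_le]; constructor <;> omega) (by rw [abs_le]; constructor <;> omega) true
        · have := hM (v - (0, 1)) (by rw [abs_le]; simp only [Prod.fst_sub]; constructor <;> omega)
            (by rw [abs_le]; simp only [Prod.snd_sub]; constructor <;> omega) true
          simpa [has] using this
        · exact hM v (by rw [abs_le]; constructor <;> omega) (by rw [abs_le]; constructor <;> omega) false
        · have := hM (v - (1, 0)) (by rw [abs_le]; simp only [Prod.fst_sub]; constructor <;> omega)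
            (by rw [abs_le]; simp only [Prod.snd_sub]; constructor <;> omega) false
          simpa [has] using this
      have hstep : step m'.1 v (A j) = step m.1 v (A j) := by
        simp only [step, hhas]
      simp only [pos]
      rw [h3, ← hv, hstep]
      refine ⟨rfl, ?_⟩
      have hD : ∀ D : Dir, |(vec D).1| ≤ 1 ∧ |(vec D).2| ≤ 1 := by
        intro D
        cases D <;> simp [vec]
      have hDj := hD (A j)
      rw [abs_le, abs_le] at hDj
      unfold step
      split
      · simp only [Prod.fst_add, Prod.snd_add]
        rw [abs_le, abs_le]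
        push_cast
        refine ⟨⟨?_, ?_⟩, ?_, ?_⟩ <;> omega
      · rw [abs_le, abs_le]
        push_cast
        refine ⟨⟨?_, ?_⟩, ?_, ?_⟩ <;> omega
  exact fun j hj => (key j hj).1

end Pool.BRB
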