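import Pool.Agent.H74.BRB.Stmts

/-!
# BRB: row NUL (log-null sets)
-/

set_option autoImplicit false

namespace Pool.BRB

open MeasureTheory

theorem NUL_cyl (hC : CYLStmt) (hU : UNIStmt) (hN : NEAStmt) (C : Set Triple) (k : ℕ)
    (c : Triple) (r : ℕ) (hr : 2 ≤ r) :
    wordLaw {A | ∃ m ∈ C, Near r c m ∧ Walk m.1 k m.2.1 m.2.2 ∧ ¬ Solves A m} ≤
      ENNReal.ofReal (270 * k / Real.log r) := by
  by_cases h : ∃ m ∈ C, Near r c m ∧ Walk m.1 k m.2.1 m.2.2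
  · obtain ⟨m₀, -, hn₀, hw₀⟩ := h
    have hsub : {A : ℕ → Dir | ∃ m ∈ C, Near r c m ∧ Walk m.1 k m.2.1 m.2.2 ∧ ¬ Solves A m} ⊆
        {A : ℕ → Dir | ∀ j ≤ r, pos m₀.1 m₀.2.1 A j ≠ m₀.2.2} := by
      rintro A ⟨m, -, hn, -, hs⟩ j hj hp
      apply hs
      refine ⟨j, ?_⟩
      rw [hN r c m A hn j hj, ← hN r c m₀ A hn₀ j hj, hp, hn.1, hn₀.1]
    calc wordLaw {A | ∃ m ∈ C, Near r c m ∧ Walk m.1 k m.2.1 m.2.2 ∧ ¬ Solves A m}
        ≤ wordLaw {A : ℕ → Dir | ∀ j ≤ r, pos m₀.1 m₀.2.1 A j ≠ m₀.2.2} := measure_mono hsub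
      _ = ENNReal.ofReal (uu m₀.1 m₀.2.2 r m₀.2.1) := (hC m₀.1 m₀.2.1 m₀.2.2 r).2
      _ ≤ ENNReal.ofReal (270 * k / Real.log r) :=
        ENNReal.ofReal_le_ofReal (hU m₀.1 m₀.2.1 m₀.2.2 k r hw₀ hr)
  · have he : {A : ℕ → Dir | ∃ m ∈ C, Near r c m ∧ Walk m.1 k m.2.1 m.2.2 ∧ ¬ Solves A m} = ∅ := by
      apply Set.eq_empty_of_forall_notMem
      rintro A ⟨m, hm, hn, hw, -⟩
      exact h ⟨m, hm, hn, hw⟩
    rw [he, measure_empty]
    exact zero_le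

theorem NUL_bound (hC : CYLStmt) (hU : UNIStmt) (hN : NEAStmt) (C : Set Triple) (k : ℕ)
    (hL : LogNull C) (δ : ℝ) (hδ : 0 < δ) :
    wordLaw {A | ¬ ∀ m ∈ C, Walk m.1 k m.2.1 m.2.2 → Solves A m} ≤ ENNReal.ofReal δ := by
  have hk : (0 : ℝ) ≤ k := Nat.cast_nonneg k
  have hε : 0 < δ / (270 * k + 1) := by positivity
  obtain ⟨c, r, hr, hs, hlt, hcov⟩ := hL _ hε
  have hlog : ∀ i, 0 < Real.log (r i) := fun i =>
    Real.log_pos (by have := hr i; exact_mod_cast (by omega : 1 < r i))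
  have hsub : {A | ¬ ∀ m ∈ C, Walk m.1 k m.2.1 m.2.2 → Solves A m} ⊆
      ⋃ i, {A : ℕ → Dir | ∃ m ∈ C, Near (r i) (c i) m ∧ Walk m.1 k m.2.1 m.2.2 ∧
        ¬ Solves A m} := by
    intro A hA
    simp only [Set.mem_setOf_eq] at hA
    push Not at hA
    obtain ⟨m, hm, hw, hns⟩ := hA
    obtain ⟨i, hi⟩ := hcov m hm
    exact Set.mem_iUnion.2 ⟨i, m, hm, hi, hw, hns⟩
  have hs2 : Summable (fun i => 270 * (k : ℝ) / Real.log (r i)) := by
    have := hs.mul_left (270 * (k : ℝ))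
    refine this.congr (fun i => ?_)
    ring
  have hts : ∑' i, 270 * (k : ℝ) / Real.log (r i) = 270 * k * ∑' i, 1 / Real.log (r i) := by
    rw [← tsum_mul_left]
    congr 1
    ext i
    ring
  calc wordLaw {A | ¬ ∀ m ∈ C, Walk m.1 k m.2.1 m.2.2 → Solves A m}
      ≤ wordLaw (⋃ i, {A : ℕ → Dir | ∃ m ∈ C, Near (r i) (c i) m ∧ Walk m.1 k m.2.1 m.2.2 ∧
        ¬ Solves A m}) := measure_mono hsub
    _ ≤ ∑' i, wordLaw {A : ℕ → Dir | ∃ m ∈ C, Near (r i) (c i) m ∧ Walk m.1 k m.2.1 m.2.2 ∧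
        ¬ Solves A m} := measure_iUnion_le _
    _ ≤ ∑' i, ENNReal.ofReal (270 * k / Real.log (r i)) :=
        ENNReal.tsum_le_tsum (fun i => NUL_cyl hC hU hN C k (c i) (r i) (hr i))
    _ = ENNReal.ofReal (∑' i, 270 * (k : ℝ) / Real.log (r i)) := by
        rw [ENNReal.ofReal_tsum_of_nonneg _ hs2]
        intro i
        have := hlog i
        positivity
    _ ≤ ENNReal.ofReal δ := by
        apply ENNReal.ofReal_le_ofReal
        rw [hts]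
        have h1 : 270 * (k : ℝ) * ∑' i, 1 / Real.log (r i) ≤ 270 * k * (δ / (270 * k + 1)) :=
          mul_le_mul_of_nonneg_left hlt.le (by positivity)
        have h2 : 270 * (k : ℝ) * (δ / (270 * k + 1)) ≤ δ := by
          rw [← mul_div_assoc, div_le_iff₀ (by positivity)]
          nlinarith
        exact h1.trans h2

theorem NUL (hW : WLKStmt) (hC : CYLStmt) (hU : UNIStmt) (hN : NEAStmt) : NULStmt := by
  intro C hL
  have key : ∀ k : ℕ, ∀ᵐ A ∂wordLaw, ∀ m ∈ C, Walk m.1 k m.2.1 m.2.2 → Solves A m := by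
    intro k
    rw [ae_iff]
    refine le_antisymm ?_ zero_le
    apply ENNReal.le_of_forall_pos_le_add
    intro δ hδ _
    rw [zero_add]
    have := NUL_bound hC hU hN C k hL δ (by exact_mod_cast hδ)
    rwa [ENNReal.ofReal_coe_nnreal] at this
  have key2 := ae_all_iff.2 key
  filter_upwards [key2] with A hA m hm hmaze
  obtain ⟨k, hk⟩ := (hW m).1 hmaze
  exact hA k m hm hk

end Pool.BRB
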