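import Pool.Agent.H74.BRB.Stmts

set_option autoImplicit false

namespace Pool.BRB

theorem pth_step (M : Board) (f : ℤ × ℤ → ℝ) (L : ℝ)
    (h : ∀ e, M e = true → |inc f e| ≤ L) (u : ℤ × ℤ) (D : Dir) (hD : has M u D = true) :
    f u - f (u + vec D) ≤ L := by
  cases D with
  | N =>
    have h1 := h (u, true) hD
    have h2 := (abs_le.1 h1).1
    simp only [inc, if_true] at h2
    simp only [vec]
    linarith
  | E =>
    have h1 := h (u, false) hD
    have h2 := (abs_le.1 h1).1
    simp only [inc, Bool.false_eq_true, if_false] at h2
    simp only [vec]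
    linarith
  | S =>
    have h1 := h (u - (0, 1), true) hD
    have h2 := (abs_le.1 h1).2
    simp only [inc, if_true, sub_add_cancel] at h2
    have e : u + vec Dir.S = u - (0, 1) := by
      simp only [vec]
      ext <;> simp [sub_eq_add_neg]
    rw [e]
    linarith
  | W =>
    have h1 := h (u - (1, 0), false) hD
    have h2 := (abs_le.1 h1).2
    simp only [inc, Bool.false_eq_true, if_false, sub_add_cancel] at h2
    have e : u + vec Dir.W = u - (1, 0) := by
      simp only [vec]
      ext <;> simp [sub_eq_add_neg]
    rw [e]
    linarith

theorem PTH (h : GRDStmt) : PTHStmt := by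
  intro M d o f k hP hW
  have hg := h M d f hP
  have key : ∀ (k : ℕ) (u : ℤ × ℤ), Walk M k u d → f u ≤ k * Lap M f d := by
    intro k
    induction k with
    | zero =>
      intro u hu
      have : u = d := hu
      rw [this, hP.1]
      simp
    | succ k ih =>
      intro u hu
      obtain ⟨D, hD, hw⟩ := hu
      have h1 := ih _ hw
      have h2 := pth_step M f (Lap M f d) hg u D hD
      push_cast
      linarith
  exact key k o hW

end Pool.BRB
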