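import Pool.Agent.H74.BRB.Stmts

/-!
BRB: row SBP, summation by parts
-/

set_option autoImplicit false

namespace Pool.BRB

/-- the increment of `f` along the present edges -/
noncomputable def SBPa (M : Board) (f : ℤ × ℤ → ℝ) (e : (ℤ × ℤ) × Bool) : ℝ :=
  if M e = true then inc f e else 0

theorem SBP_lap (M : Board) (f : ℤ × ℤ → ℝ) (v : ℤ × ℤ) :
    Lap M f v = (SBPa M f (v, true) - SBPa M f (v - (0, 1), true)) +
      (SBPa M f (v, false) - SBPa M f (v - (1, 0), false)) := by
  have hu : (Finset.univ : Finset Dir) = {Dir.N, Dir.S, Dir.E, Dir.W} := rfl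
  have e1 : v + (0, -1) = v - (0, 1) := by ext <;> simp [sub_eq_add_neg]
  have e2 : v + (-1, 0) = v - (1, 0) := by ext <;> simp [sub_eq_add_neg]
  rw [Lap, hu, Finset.sum_insert (by decide), Finset.sum_insert (by decide),
    Finset.sum_insert (by decide), Finset.sum_singleton]
  simp only [step, has, vec, SBPa, inc, e1, e2, if_true, sub_add_cancel, Bool.false_eq_true,
    if_false]
  split_ifs <;> ring

theorem SBP : SBPStmt := by
  intro M g f hg
  set a := SBPa M f with ha
  -- functions of `v` with a factor `g v`
  have sg : ∀ b : ℤ × ℤ → ℝ, Summable fun v => g v * b v := fun b =>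
    summable_of_hasFiniteSupport (hg.subset fun v hv h0 => hv (by simp [h0]))
  -- shifted functions
  have sh : ∀ (t : ℤ × ℤ) (b : ℤ × ℤ → ℝ), Summable fun v => g (v + t) * b v := by
    intro t b
    have h := (Equiv.addRight t).summable_iff.2 (sg fun v => b (v - t))
    refine h.congr fun v => ?_
    simp
  have shift : ∀ (t : ℤ × ℤ) (b : ℤ × ℤ → ℝ),
      ∑' v, g v * b (v - t) = ∑' v, g (v + t) * b v := by
    intro t b
    rw [← (Equiv.addRight t).tsum_eq fun v => g v * b (v - t)]
    refine tsum_congr fun v => ?_
    simp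
  -- the energy form
  have hE : En M g f = (∑' v, inc g (v, false) * a (v, false)) +
      ∑' v, inc g (v, true) * a (v, true) := by
    have h1 : En M g f = ∑' e : (ℤ × ℤ) × Bool, inc g e * a e := by
      refine tsum_congr fun e => ?_
      rw [ha, SBPa]
      split_ifs <;> simp
    have hinc : ∀ c : Bool, Summable fun v => inc g (v, c) * a (v, c) := by
      intro c
      have h := (sh (if c then (0, 1) else (1, 0)) fun v => a (v, c)).sub (sg fun v => a (v, c))
      refine h.congr fun v => ?_
      rw [inc]
      ring
    have hfin : ∀ t : ℤ × ℤ, {v : ℤ × ℤ | g (v + t) ≠ 0}.Finite := fun t =>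
      hg.preimage (f := fun v => v + t) (add_left_injective t).injOn
    have h2 : Summable fun e : (ℤ × ℤ) × Bool => inc g e * a e := by
      refine summable_of_hasFiniteSupport
        ((((hg.union (hfin (0, 1))).union (hfin (1, 0))).prod (Set.finite_univ (α := Bool))).subset
          ?_)
      rintro ⟨v, c⟩ hv
      refine Set.mem_prod.2 ⟨?_, Set.mem_univ _⟩
      by_contra h
      simp only [Set.mem_union, Set.mem_ofPred_eq, not_or, not_not] at h
      refine hv ?_
      obtain ⟨⟨h3, h4⟩, h5⟩ := h
      cases c <;> simp [inc, h3, h4, h5]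
    rw [h1, h2.tsum_prod' fun v => Summable.of_finite]
    simp only [tsum_bool]
    exact (hinc false).tsum_add (hinc true)
  have hN := shift (0, 1) fun v => a (v, true)
  have hW := shift (1, 0) fun v => a (v, false)
  have i1 : ∑' v, inc g (v, true) * a (v, true) =
      (∑' v, g (v + (0, 1)) * a (v, true)) - ∑' v, g v * a (v, true) := by
    rw [← (sh (0, 1) fun v => a (v, true)).tsum_sub (sg fun v => a (v, true))]
    refine tsum_congr fun v => ?_
    simp only [inc, if_true]
    ring
  have i2 : ∑' v, inc g (v, false) * a (v, false) =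
      (∑' v, g (v + (1, 0)) * a (v, false)) - ∑' v, g v * a (v, false) := by
    rw [← (sh (1, 0) fun v => a (v, false)).tsum_sub (sg fun v => a (v, false))]
    refine tsum_congr fun v => ?_
    simp only [inc, Bool.false_eq_true, if_false]
    ring
  have hL : ∑' v : ℤ × ℤ, g v * Lap M f v =
      ((∑' v, g v * a (v, true)) - ∑' v, g v * a (v - (0, 1), true)) +
      ((∑' v, g v * a (v, false)) - ∑' v, g v * a (v - (1, 0), false)) := by
    rw [← (sg fun v => a (v, true)).tsum_sub (sg fun v => a (v - (0, 1), true)),
      ← (sg fun v => a (v, false)).tsum_sub (sg fun v => a (v - (1, 0), false)),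
      ← ((sg fun v => a (v, true)).sub (sg fun v => a (v - (0, 1), true))).tsum_add
        ((sg fun v => a (v, false)).sub (sg fun v => a (v - (1, 0), false)))]
    refine tsum_congr fun v => ?_
    rw [SBP_lap]
    ring
  rw [hL, hE, i1, i2, hN, hW]
  ring

end Pool.BRB
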