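import Pool.Agent.H74.BRB.Stmts

/-!
# Row SHL of board brb7: sums over a box by shells
-/

set_option autoImplicit false

namespace Pool.BRB

private lemma mem_box (d v : ℤ × ℤ) (r : ℕ) :
    v ∈ Finset.Icc (d.1 - (r : ℤ)) (d.1 + r) ×ˢ Finset.Icc (d.2 - (r : ℤ)) (d.2 + r) ↔
      nn v d ≤ r := by
  rw [Finset.mem_product, Finset.mem_Icc, Finset.mem_Icc]
  unfold nn
  constructor
  · rintro ⟨⟨h1, h2⟩, h3, h4⟩
    exact max_le (by omega) (by omega)
  · intro h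
    have h1 := (max_le_iff.1 h).1
    have h2 := (max_le_iff.1 h).2
    exact ⟨⟨by omega, by omega⟩, by omega, by omega⟩

private lemma card_box (d : ℤ × ℤ) (r : ℕ) :
    (Finset.Icc (d.1 - (r : ℤ)) (d.1 + r) ×ˢ Finset.Icc (d.2 - (r : ℤ)) (d.2 + r)).card =
      (2 * r + 1) * (2 * r + 1) := by
  rw [Finset.card_product, Int.card_Icc, Int.card_Icc]
  have h1 : (d.1 + (r : ℤ) + 1 - (d.1 - (r : ℤ))).toNat = 2 * r + 1 := by omega
  have h2 : (d.2 + (r : ℤ) + 1 - (d.2 - (r : ℤ))).toNat = 2 * r + 1 := by omega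
  rw [h1, h2]

theorem SHL : SHLStmt := by
  intro d φ r
  induction r with
  | zero =>
    have h : Finset.Icc (d.1 - ((0 : ℕ) : ℤ)) (d.1 + (0 : ℕ)) ×ˢ
        Finset.Icc (d.2 - ((0 : ℕ) : ℤ)) (d.2 + (0 : ℕ)) = {d} := by
      ext v
      rw [mem_box, Finset.mem_singleton]
      unfold nn
      constructor
      · intro h
        have h1 := (max_le_iff.1 h).1
        have h2 := (max_le_iff.1 h).2
        exact Prod.ext (by omega) (by omega)
      · intro h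
        rw [h]
        simp
    rw [h]
    simp [nn]
  | succ r ih =>
    have hsub : Finset.Icc (d.1 - (r : ℤ)) (d.1 + r) ×ˢ Finset.Icc (d.2 - (r : ℤ)) (d.2 + r) ⊆
        Finset.Icc (d.1 - ((r + 1 : ℕ) : ℤ)) (d.1 + ((r + 1 : ℕ) : ℤ)) ×ˢ
          Finset.Icc (d.2 - ((r + 1 : ℕ) : ℤ)) (d.2 + ((r + 1 : ℕ) : ℤ)) := by
      intro v hv
      rw [mem_box] at hv ⊢
      omega
    rw [← Finset.sum_sdiff hsub, ih, Finset.sum_range_succ]
    have hconst : ∀ v ∈ (Finset.Icc (d.1 - ((r + 1 : ℕ) : ℤ)) (d.1 + ((r + 1 : ℕ) : ℤ)) ×ˢ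
          Finset.Icc (d.2 - ((r + 1 : ℕ) : ℤ)) (d.2 + ((r + 1 : ℕ) : ℤ))) \
        (Finset.Icc (d.1 - (r : ℤ)) (d.1 + r) ×ˢ Finset.Icc (d.2 - (r : ℤ)) (d.2 + r)),
        φ (nn v d) = φ (r + 1) := by
      intro v hv
      rw [Finset.mem_sdiff, mem_box, mem_box] at hv
      have : nn v d = r + 1 := by omega
      rw [this]
    rw [Finset.sum_congr rfl hconst, Finset.sum_const, Finset.card_sdiff_of_subset hsub, card_box,
      card_box, nsmul_eq_mul]
    have hc : ((2 * (r + 1) + 1) * (2 * (r + 1) + 1) - (2 * r + 1) * (2 * r + 1) : ℕ) =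
        8 * (r + 1) := by
      have : (2 * (r + 1) + 1) * (2 * (r + 1) + 1) = (2 * r + 1) * (2 * r + 1) + 8 * (r + 1) := by
        ring
      omega
    rw [hc]
    push_cast
    ring

end Pool.BRB
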