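import Pool.Agent.H14.BRB.CUT
import Pool.Agent.H17.BRB.UPO
import Pool.Agent.H17.BRB.UPR
import Pool.Agent.H2.BRB.ONE
import Pool.Agent.H2.BRB.PRB
import Pool.Agent.H2.BRB.WLK
import Pool.Agent.H22.BRB.FLB
import Pool.Agent.H50.BRB.AEM
import Pool.Agent.H51.BRB.CYL
import Pool.Agent.H51.BRB.TEL
import Pool.Agent.H63.BRB.UNI
import Pool.Agent.H65.BRB.FLX
import Pool.Agent.H74.BRB.ENG
import Pool.Agent.H74.BRB.EXA
import Pool.Agent.H74.BRB.EXBt
import Pool.Agent.H74.BRB.GRD
import Pool.Agent.H74.BRB.LGB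
import Pool.Agent.H74.BRB.MEA
import Pool.Agent.H74.BRB.NEA
import Pool.Agent.H74.BRB.NULm
import Pool.Agent.H74.BRB.PTH
import Pool.Agent.H74.BRB.SBP
import Pool.Agent.H74.BRB.SHL

/-! assembly of the board brb7 -/

set_option autoImplicit false

namespace Pool.BRB

open MeasureTheory

theorem pth : PTHStmt := PTH (GRD SBP)
theorem flx : FLXStmt := FLX SBP (ENG SBP) UPR UPO
theorem tel : TELStmt := TEL flx UPO UPR
theorem cutb : CUTStmt := CUT SHL
theorem flb : FLBStmt := FLB tel cutb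
theorem prb : PRBStmt := PRB
theorem cyl : CYLStmt := CYL PRB

theorem walk_of_path (M : Board) (p : ℕ → ℤ × ℤ) : ∀ (k : ℕ),
    (∀ i < k, ∃ D, has M (p i) D = true ∧ p (i + 1) = p i + vec D) → Walk M k (p 0) (p k) := by
  intro k
  induction k generalizing p with
  | zero => intro _; rfl
  | succ k ih =>
    intro h
    obtain ⟨D, hD, hp⟩ := h 0 (Nat.succ_pos k)
    have h2 := ih (fun i => p (i + 1)) (fun i hi => h (i + 1) (Nat.succ_lt_succ hi))
    refine ⟨D, hD, ?_⟩
    rw [← hp]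
    exact h2

theorem uni : UNIStmt := UNI pth UPO flb LGB
theorem one : ONEStmt := ONE WLK cyl uni PRB
theorem aem : AEMStmt := AEM one (MEA WLK) PRB
theorem nul : NULStmt := NUL WLK cyl uni NEA
theorem exb : EXBStmt := EXB EXA nul

/-- the uniform bound for the probability not to reach the destination in `n` steps -/
theorem unif (M : Board) (p : ℕ → ℤ × ℤ) (k n : ℕ)
    (hp : ∀ i < k, ∃ D, has M (p i) D = true ∧ p (i + 1) = p i + vec D) (hn : 2 ≤ n) :
    wordLaw {A : ℕ → Dir | ∀ j ≤ n, pos M (p 0) A j ≠ p k} ≤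
      ENNReal.ofReal (270 * k / Real.log n) := by
  rw [(cyl M (p 0) (p k) n).2]
  exact ENNReal.ofReal_le_ofReal (uni M (p 0) (p k) k n (walk_of_path M p k hp) hn)

end Pool.BRB
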