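import Pool.Agent.H74.BRB.Stmts

/-!
# Row LGB of the board brb7: a choice of the radius
-/

set_option autoImplicit false

namespace Pool.BRB

theorem log_le_har (r : ℕ) : Real.log ((r : ℝ) + 1) ≤ har r := by
  have h := log_add_one_le_harmonic r
  have h2 : ((harmonic r : ℚ) : ℝ) = har r := by
    unfold harmonic har
    push_cast
    apply Finset.sum_congr rfl
    intro i _
    rw [one_div]
  rw [h2] at h
  exact_mod_cast h

theorem LGB : LGBStmt := by
  intro n hn
  have hn2 : (2 : ℝ) ≤ (n : ℝ) := by exact_mod_cast hn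
  have hn0 : (0 : ℝ) < n := by linarith
  have hn1 : (1 : ℝ) ≤ n := by linarith
  set x : ℝ := (n : ℝ) ^ ((1 : ℝ) / 3) with hx
  have hx1 : 1 ≤ x := Real.one_le_rpow hn1 (by norm_num)
  have hx0 : 0 < x := by linarith
  have hx3 : x ^ 3 = n := by
    rw [hx, ← Real.rpow_natCast, ← Real.rpow_mul hn0.le]
    norm_num
  have hlog : Real.log n = 3 * Real.log x := by
    rw [← hx3, Real.log_pow]
    norm_num
  have hlogn : 0 < Real.log n := Real.log_pos (by linarith)
  have hlogx : Real.log x ≤ x := by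
    have := Real.log_le_sub_one_of_pos hx0
    linarith
  have hlogx0 : 0 < Real.log x := by linarith
  refine ⟨⌊x⌋₊, ?_, ?_⟩
  · exact (Nat.one_le_floor_iff x).2 hx1
  · set r : ℕ := ⌊x⌋₊ with hr
    have hr1 : 1 ≤ r := (Nat.one_le_floor_iff x).2 hx1
    have hr1' : (1 : ℝ) ≤ (r : ℝ) := by exact_mod_cast hr1
    have hrx : (r : ℝ) ≤ x := Nat.floor_le hx0.le
    have hxr : x < (r : ℝ) + 1 := Nat.lt_floor_add_one x
    have hhar : Real.log n / 3 ≤ har r := by
      have h1 : Real.log x ≤ Real.log ((r : ℝ) + 1) := Real.log_le_log hx0 hxr.le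
      have h2 := log_le_har r
      linarith
    have hA : 18 / har r ≤ 54 / Real.log n := by
      rw [div_le_div_iff₀ (by linarith) hlogn]
      linarith
    have hB : 8 * (2 * (r : ℝ) + 1) ^ 2 / n ≤ 216 / Real.log n := by
      have h1 : (2 * (r : ℝ) + 1) ^ 2 ≤ 9 * x ^ 2 := by
        have h3 : 2 * (r : ℝ) + 1 ≤ 3 * x := by linarith
        have h4 : (2 * (r : ℝ) + 1) ^ 2 ≤ (3 * x) ^ 2 := pow_le_pow_left₀ (by linarith) h3 2
        linarith [h4, mul_pow (3 : ℝ) x 2]
      rw [div_le_div_iff₀ hn0 hlogn]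
      have h5 : Real.log n ≤ 3 * x := by linarith
      calc 8 * (2 * (r : ℝ) + 1) ^ 2 * Real.log n
          ≤ 8 * (9 * x ^ 2) * (3 * x) := by
            apply mul_le_mul (by linarith) h5 hlogn.le (by positivity)
        _ = 216 * x ^ 3 := by ring
        _ = 216 * (n : ℝ) := by rw [hx3]
    have h6 : (54 : ℝ) / Real.log n + 216 / Real.log n = 270 / Real.log n := by
      rw [← add_div]
      norm_num
    linarith

end Pool.BRB
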