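import Pool.Agent.H74.BRB.Defs

/-!
# BRB: statements of the rows of the board (problem MP_46d976_co)

Row `XXX` is `def XXXStmt : Prop`; the row theorem is `theorem XXX : XXXStmt`, or with the rows it
uses as hypotheses.
-/

set_option autoImplicit false

namespace Pool.BRB

open MeasureTheory

/-- `u` is joined to `v` by a walk of `k` edges of `M` -/
def Walk (M : Board) : ℕ → ℤ × ℤ → ℤ × ℤ → Prop
  | 0, u, v => u = v
  | k + 1, u, v => ∃ D, has M u D = true ∧ Walk M k (u + vec D) v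

/-- the properties of the functions to which the flow argument applies -/
def Pot (M : Board) (d : ℤ × ℤ) (f : ℤ × ℤ → ℝ) : Prop :=
  f d = 0 ∧ (∀ v, 0 ≤ f v ∧ f v ≤ 1) ∧ {v | f v ≠ 1}.Finite ∧ ∀ v, v ≠ d → Lap M f v ≤ 0

/-! ## Discrete potential theory -/

/-- SBP. Summation by parts. Proof: `Lap M f v = ∑_D [has M v D] (f (v + vec D) - f v)`; all sums
have finite support; shift `v` by `(0,1)` in the terms of `S` and by `(1,0)` in the terms of `W`
(`Equiv.tsum_eq (Equiv.addRight _)`). -/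
def SBPStmt : Prop := ∀ (M : Board) (g f : ℤ × ℤ → ℝ), {v | g v ≠ 0}.Finite →
  ∑' v : ℤ × ℤ, g v * Lap M f v = - En M g f

/-- GRD. Gradient bound. Proof: let the edge join `v` and `w` with `f v < f w` (otherwise trivial,
`Lap M f d ≥ 0` since `f d = 0 ≤ f`). `L = {x | f x < f w}` is finite (`f w ≤ 1`), contains `v` and
`d`, not `w`. SBP with `g` the indicator of `L`: the left side is at most `Lap M f d`, and
`- En M g f` is a sum of nonnegative terms (an edge from `x ∈ L` to `y ∉ L` contributes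
`f y - f x ≥ 0`), one of which is `f w - f v`. -/
def GRDStmt : Prop := ∀ (M : Board) (d : ℤ × ℤ) (f : ℤ × ℤ → ℝ), Pot M d f →
  ∀ e, M e = true → |inc f e| ≤ Lap M f d

/-- PTH. Along a walk (GRD for each edge; for `S` and `W` the edge starts at the other end). -/
def PTHStmt : Prop := ∀ (M : Board) (d o : ℤ × ℤ) (f : ℤ × ℤ → ℝ) (k : ℕ), Pot M d f →
  Walk M k o d → f o ≤ k * Lap M f d

/-- ENG. Energy bound. Proof: SBP with `g = 1 - f`: the right side is `En M f f`, the left side is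
at most its term at `v = d`, `Lap M f d`. -/
def ENGStmt : Prop := ∀ (M : Board) (d : ℤ × ℤ) (f : ℤ × ℤ → ℝ), Pot M d f →
  En M f f ≤ Lap M f d

/-- UPR. Properties of `uu`. Proof: induction on `n`; for `v ≠ d`,
`Lap M (uu M d n) v = 4 (uu M d (n+1) v - uu M d n v)`; a step changes `nn · d` by at most 1. -/
def UPRStmt : Prop := ∀ (M : Board) (d : ℤ × ℤ),
  (∀ n v, 0 ≤ uu M d n v ∧ uu M d n v ≤ 1) ∧
  (∀ n, uu M d n d = 0) ∧
  (∀ n v, n < nn v d → uu M d n v = 1) ∧
  (∀ n v, uu M d (n + 1) v ≤ uu M d n v) ∧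
  (∀ n v, v ≠ d → Lap M (uu M d n) v = 4 * (uu M d (n + 1) v - uu M d n v))

/-- UPO. `uu M d n` has property `Pot` (UPR; the box `{v | nn v d ≤ n}` is finite), and
`Lap M (uu M d n) d` is nonincreasing in `n`. -/
def UPOStmt : Prop := ∀ (M : Board) (d : ℤ × ℤ), (∀ n, Pot M d (uu M d n)) ∧
  ∀ n, Lap M (uu M d (n + 1)) d ≤ Lap M (uu M d n) d

/-- FLX. Proof: with `u = uu M d n`, `u' = uu M d (n+1)`, SBP gives
`- En M g u = Lap M u d + ∑' 4 g (u' - u) = Lap M u d - 4 (G_n - G_{n+1})` (`u d = u' d = 0`), and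
`- inc g * inc u ≤ (inc g ^ 2 + inc u ^ 2) / 2`, ENG: `En M u u ≤ Lap M u d`. -/
def FLXStmt : Prop := ∀ (M : Board) (d : ℤ × ℤ) (g : ℤ × ℤ → ℝ) (n : ℕ),
  {v | g v ≠ 0}.Finite → g d = 1 →
  Lap M (uu M d n) d ≤ En M g g + 8 * (∑' v, g v * uu M d n v - ∑' v, g v * uu M d (n + 1) v)

/-- TEL. Proof: sum FLX over the times `j < n`, telescoping; `Lap M (uu M d j) d` is nonincreasing
(UPO), `0 ≤ g * uu ≤ g`. -/
def TELStmt : Prop := ∀ (M : Board) (d : ℤ × ℤ) (g : ℤ × ℤ → ℝ) (n : ℕ),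
  {v | g v ≠ 0}.Finite → g d = 1 → (∀ v, 0 ≤ g v) →
  n * Lap M (uu M d n) d ≤ n * En M g g + 8 * ∑' v, g v

/-- SHL. Sums over a box by shells. Proof: induction on `r`: the box of radius `r + 1` has
`(2r+3)² - (2r+1)² = 8 (r+1)` points more. -/
def SHLStmt : Prop := ∀ (d : ℤ × ℤ) (φ : ℕ → ℝ) (r : ℕ),
  ∑ v ∈ Finset.Icc (d.1 - (r : ℤ)) (d.1 + r) ×ˢ Finset.Icc (d.2 - (r : ℤ)) (d.2 + r), φ (nn v d) =
    φ 0 + ∑ j ∈ Finset.range r, 8 * ((j : ℝ) + 1) * φ (j + 1)

/-- CUT. Proof: `cut d r v = 0` if `nn v d ≥ r`. For an edge from `v`: `|inc| ≤ 1/(max (nn v d) 1 *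
har r)` since `nn` changes by at most one (`har (a+1) - har a = 1/(a+1)` with `a + 1 ≥ nn v d`), and
`inc = 0` if `nn v d > r`; so `En ≤ 2 (1 + 8 har r) / har r ^ 2 ≤ 18 / har r` by SHL. -/
def CUTStmt : Prop := ∀ (M : Board) (d : ℤ × ℤ) (r : ℕ), 1 ≤ r →
  {v | cut d r v ≠ 0}.Finite ∧ cut d r d = 1 ∧ (∀ v, 0 ≤ cut d r v) ∧
  ∑' v, cut d r v ≤ (2 * r + 1) ^ 2 ∧ En M (cut d r) (cut d r) ≤ 18 / har r

/-- FLB. Proof: TEL for `g = cut d r`, CUT. -/
def FLBStmt : Prop := ∀ (M : Board) (d : ℤ × ℤ) (r n : ℕ), 1 ≤ r → 1 ≤ n →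
  Lap M (uu M d n) d ≤ 18 / har r + 8 * (2 * r + 1) ^ 2 / n

/-- LGB. Real analysis: for `n ≥ 2` there is `r ≥ 1` (take `r = ⌊n^{1/3}⌋`) with
`18 / har r + 8 (2r+1)²/n ≤ 270 / log n`: `har r ≥ log (r+1) ≥ (log n)/3`
(`log_add_one_le_harmonic`), `(2r+1)² ≤ 9 r² ≤ 9 n^{2/3}`, `log n ≤ 3 n^{1/3}`. -/
def LGBStmt : Prop := ∀ n : ℕ, 2 ≤ n → ∃ r : ℕ, 1 ≤ r ∧
  18 / har r + 8 * (2 * r + 1) ^ 2 / n ≤ 270 / Real.log n

/-- UNI. The uniform bound. Proof: PTH, UPO, FLB, LGB. -/
def UNIStmt : Prop := ∀ (M : Board) (o d : ℤ × ℤ) (k n : ℕ), Walk M k o d → 2 ≤ n →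
  uu M d n o ≤ 270 * k / Real.log n

/-! ## Words -/

/-- PRB. `wordLaw` is a probability measure, and the law of one letter too. -/
def PRBStmt : Prop :=
  IsProbabilityMeasure ((4 : ENNReal)⁻¹ • (Measure.count : Measure Dir)) ∧
  IsProbabilityMeasure wordLaw

/-- CYL. The probability not to visit `d` during the first `n` steps. Proof: the event is the
disjoint union over the bad words `w : Fin n → Dir` of the cylinders `{A | ∀ i < n, A i = w i}`, of
measure `4^{-n}` (`Measure.infinitePi_pi`); the number of bad words is `4^n uu M d n v` by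
induction on `n` (first letter, `Fin.consEquiv`). -/
def CYLStmt : Prop := ∀ (M : Board) (o d : ℤ × ℤ) (n : ℕ),
  MeasurableSet {A : ℕ → Dir | ∀ j ≤ n, pos M o A j ≠ d} ∧
  wordLaw {A : ℕ → Dir | ∀ j ≤ n, pos M o A j ≠ d} = ENNReal.ofReal (uu M d n o)

/-- WLK. `IsMaze` by walks. -/
def WLKStmt : Prop := ∀ m : Triple, IsMaze m ↔ ∃ k, Walk m.1 k m.2.1 m.2.2

/-- MEA. Measurability. Proof: `ℤ × ℤ`, `Dir` are countable with all sets measurable; `pos` is
measurable in `(M, o, A)` by induction; `Walk` is a countable union of cylinder sets. -/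
def MEAStmt : Prop := MeasurableSet {p : (ℕ → Dir) × Triple | IsMaze p.2 → Solves p.1 p.2}

/-- ONE. For each maze almost every word solves it. Proof: WLK, CYL, UNI with `n → ∞`. -/
def ONEStmt : Prop := ∀ m : Triple, IsMaze m → ∀ᵐ A ∂wordLaw, Solves A m

/-- AEM. Proof: ONE, MEA and `Measure.ae_ae_comm` (Fubini). -/
def AEMStmt : Prop := ∀ μ : Measure Triple, [SigmaFinite μ] →
  ∀ᵐ A ∂wordLaw, ∀ᵐ m ∂μ, IsMaze m → Solves A m

/-- NEA. Near mazes give the same first `n` steps. Proof: induction on `j`, the position after `j`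
steps is at distance at most `j` from the origin and the step uses edges starting at distance at
most `j + 1`. -/
def NEAStmt : Prop := ∀ (n : ℕ) (m m' : Triple) (A : ℕ → Dir), Near n m m' →
  ∀ j ≤ n, pos m'.1 m'.2.1 A j = pos m.1 m.2.1 A j

/-- NUL. Proof: by WLK it is enough to treat, for each `k`, the mazes of `C` with a walk of length
`k`. Given `ε`, take the cover; for each `i` such that the cylinder `i` contains such a maze choose
one, `m_i`; if `A` does not solve some such `m` in the cylinder `i`, then by NEA `A` does not bring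
the robot to the destination of `m_i` in `r i` steps; by CYL and UNI this has probability at most
`270 k / log (r i)`; sum over `i`: at most `270 k ε`. -/
def NULStmt : Prop := ∀ C : Set Triple, LogNull C →
  ∀ᵐ A ∂wordLaw, ∀ m ∈ C, IsMaze m → Solves A m

/-- EXA. Sparse modifications are log-null. Proof: for large `J` the edges `e j`, `j ≥ J`, start
outside the box of radius `r = ⌊exp (4 ^ J)⌋ - nn o 0 - 1` around `o`, so the set is covered by
`2 ^ J` cylinders of radius `r` (values on `e 0, ..., e (J-1)`), and `2 ^ J / log r → 0`; use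
the infinitely many remaining indices for cylinders with radii growing so fast that the sum is
small. -/
def EXAStmt : Prop := ∀ (M₀ : Board) (e : ℕ → (ℤ × ℤ) × Bool) (o d : ℤ × ℤ),
  (∀ j, Real.exp (4 ^ j) ≤ nn (e j).1 0) →
  LogNull {m | m.2 = (o, d) ∧ ∀ f, (∀ j, f ≠ e j) → m.1 f = M₀ f}

/-- EXB. Proof: EXA, NUL, countable intersection over `o, d` and over the boards `B i`. -/
def EXBStmt : Prop := ∀ (B : ℕ → Board) (e : ℕ → (ℤ × ℤ) × Bool),
  (∀ j, Real.exp (4 ^ j) ≤ nn (e j).1 0) →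
  ∀ᵐ A ∂wordLaw, ∀ m : Triple, (∃ i, ∀ f, (∀ j, f ≠ e j) → m.1 f = B i f) → IsMaze m → Solves A m

end Pool.BRB
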